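import Pool.Agent.Star60.Final

/-!
MP_1b5989_lc, Q1: the star problem is undecidable in every trace monoid that contains a
C4-submonoid.  Definitions: Pool/Agent/Star60/StarDefs.lean.
-/

namespace Pool.Agent.Results.MP_1b5989_lc.StarUndecidable

open Star60

theorem result (r : ℕ) (I : Fin r → Fin r → Prop) (hirr : ∀ x, ¬ I x x)
    (hsymm : ∀ x y, I x y → I y x)
    (h4 : ∃ a b c d : Fin r, a ≠ c ∧ b ≠ d ∧ I a b ∧ I b c ∧ I c d ∧ I d a ∧ ¬ I a c ∧ ¬ I b d) :
    -- presentations `(S, h, h(L))`: they present exactly the recognizable languages,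
    -- and the star problem is undecidable
    (∀ L : Set (Trace I), Recognizable L ↔ ∃ P : MPres r, P.Presents I L) ∧
    (¬ ∃ f : MPres r → Bool, Computable f ∧ ∀ (P : MPres r) (L : Set (Trace I)),
      P.Presents I L → (f P = true ↔ Recognizable (Submonoid.closure L : Set (Trace I)))) ∧
    -- presentations by deterministic automata with the `I`-diamond property
    (∀ L : Set (Trace I), Recognizable L ↔ ∃ P : Pres r, P.Valid I ∧ P.lang I = L) ∧
    (¬ ∃ f : Pres r → Bool, Computable f ∧ ∀ P : Pres r, P.Valid I →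
      (f P = true ↔ Recognizable (Submonoid.closure (P.lang I) : Set (Trace I)))) := by
  obtain ⟨a, b, c, d, hne, hne', hab, hbc, hcd, hda, hac, hbd⟩ := h4
  have hund := starUndecidable I hirr hsymm a b c d hab hbc hcd hda hac hbd hne hne'
  refine ⟨?_, ?_, ?_, hund⟩
  · intro L
    constructor
    · intro hL
      obtain ⟨P, hP, hPL⟩ := exists_presentation I L hL
      refine ⟨MConv.conv P, ?_⟩
      rw [← hPL]
      exact MConv.presents I hsymm P hP
    · rintro ⟨P, S, _, _, h, ν, _, _, _, _, hL⟩
      exact ⟨S, _, ‹_›, h, hL⟩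
  · rintro ⟨f, hf, hP⟩
    apply hund
    refine ⟨fun P => f (MConv.conv P), hf.comp MConv.computable_conv, ?_⟩
    intro P hval
    exact hP _ _ (MConv.presents I hsymm P hval)
  · intro L
    constructor
    · exact exists_presentation I L
    · rintro ⟨P, hval, rfl⟩
      exact recognizable_lang I hsymm P hval

end Pool.Agent.Results.MP_1b5989_lc.StarUndecidable
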